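import Pool.Agent.helper29.NS.SpecC
import Pool.Agent.helper31.NS.SL
import Pool.Agent.helper46.NS.SP

/-!
# Project `ns:` (MP_b9b054_an), module RR: rotation invariant divergence free fields
-/

set_option autoImplicit false

namespace NS

open MeasureTheory Filter Topology Set

theorem RR_lin (T : ℝ × ℝ →L[ℝ] ℝ) (u v : ℝ) : T (u, v) = u * T (1, 0) + v * T (0, 1) := by
  have : ((u, v) : ℝ × ℝ) = u • ((1, 0) : ℝ × ℝ) + v • ((0, 1) : ℝ × ℝ) := by
    ext <;> simp
  rw [this, map_add, map_smul, map_smul]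
  rfl

theorem RR_open (ρ R : ℝ) : IsOpen (Ring ρ R) := by
  have h : Continuous fun q : ℝ × ℝ => q.1 ^ 2 + q.2 ^ 2 := by fun_prop
  exact (isOpen_lt continuous_const h).inter (isOpen_lt h continuous_const)

theorem RR_curve (f : ℝ × ℝ → ℝ) (hf : Differentiable ℝ f) (γ : ℝ → ℝ × ℝ) (v : ℝ × ℝ) (s : ℝ)
    (hγ : HasDerivAt γ v s) :
    HasDerivAt (fun s => f (γ s)) (v.1 * px f (γ s) + v.2 * py f (γ s)) s := by
  have h := (hf (γ s)).hasFDerivAt.comp_hasDerivAt s hγ
  rw [show v = (v.1, v.2) from rfl, RR_lin] at h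
  exact h

theorem RR_lx (f : ℝ × ℝ → ℝ) (hf : Differentiable ℝ f) (q : ℝ × ℝ) :
    HasDerivAt (fun s : ℝ => f (q.1 + s, q.2)) (px f q) 0 := by
  have h1 : HasDerivAt (fun s : ℝ => ((q.1 + s, q.2) : ℝ × ℝ)) (1, 0) 0 :=
    ((hasDerivAt_id (0 : ℝ)).const_add q.1).prodMk (hasDerivAt_const (0 : ℝ) q.2)
  have h2 := RR_curve f hf _ _ 0 h1
  simp only [add_zero, one_mul, zero_mul] at h2
  exact h2

theorem RR_ly (f : ℝ × ℝ → ℝ) (hf : Differentiable ℝ f) (q : ℝ × ℝ) :
    HasDerivAt (fun s : ℝ => f (q.1, q.2 + s)) (py f q) 0 := by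
  have h1 : HasDerivAt (fun s : ℝ => ((q.1, q.2 + s) : ℝ × ℝ)) (0, 1) 0 :=
    (hasDerivAt_const (0 : ℝ) q.1).prodMk ((hasDerivAt_id (0 : ℝ)).const_add q.2)
  have h2 := RR_curve f hf _ _ 0 h1
  simp only [add_zero, one_mul, zero_mul, zero_add] at h2
  exact h2

theorem RR_rot (q : ℝ × ℝ) : HasDerivAt (fun α : ℝ => rot (-α) q) (q.2, -q.1) 0 := by
  have e : (fun α : ℝ => rot (-α) q) =
      fun α : ℝ => (Real.cos α * q.1 + Real.sin α * q.2, -(Real.sin α * q.1) + Real.cos α * q.2) := by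
    funext α
    unfold rot
    rw [Real.cos_neg, Real.sin_neg]
    ext
    · simp
    · simp
  rw [e]
  have hc := Real.hasDerivAt_cos 0
  have hs := Real.hasDerivAt_sin 0
  rw [Real.sin_zero, neg_zero] at hc
  rw [Real.cos_zero] at hs
  have h1 := (hc.mul_const q.1).add (hs.mul_const q.2)
  have h2 := (hs.mul_const q.1).neg.add (hc.mul_const q.2)
  have h3 := h1.prodMk h2
  simp only [zero_mul, zero_add, one_mul, add_zero] at h3
  exact h3

theorem RR_rot0 (q : ℝ × ℝ) : rot (-0) q = q := by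
  unfold rot
  simp

/-- the infinitesimal form of rotation invariance -/
theorem RR_inf (A B : ℝ × ℝ → ℝ) (hA : Differentiable ℝ A) (hB : Differentiable ℝ B) (q : ℝ × ℝ)
    (h : ∀ α : ℝ, Real.cos α * A (rot (-α) q) - Real.sin α * B (rot (-α) q) = A q ∧
      Real.sin α * A (rot (-α) q) + Real.cos α * B (rot (-α) q) = B q) :
    q.2 * px A q - q.1 * py A q = B q ∧ q.2 * px B q - q.1 * py B q = -A q := by
  have hc := Real.hasDerivAt_cos 0
  have hs := Real.hasDerivAt_sin 0
  have dA := RR_curve A hA _ _ 0 (RR_rot q)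
  have dB := RR_curve B hB _ _ 0 (RR_rot q)
  rw [RR_rot0] at dA dB
  have h1 := (hc.mul dA).sub (hs.mul dB)
  have h2 := (hs.mul dA).add (hc.mul dB)
  have e1 : ((fun α => Real.cos α) * (fun α => A (rot (-α) q)) -
      (fun α => Real.sin α) * (fun α => B (rot (-α) q))) = fun _ : ℝ => A q := by
    funext α
    exact (h α).1
  have e2 : ((fun α => Real.sin α) * (fun α => A (rot (-α) q)) +
      (fun α => Real.cos α) * (fun α => B (rot (-α) q))) = fun _ : ℝ => B q := by
    funext α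
    exact (h α).2
  have h1' : HasDerivAt (fun _ : ℝ => A q) _ 0 := e1 ▸ h1
  have h2' : HasDerivAt (fun _ : ℝ => B q) _ 0 := e2 ▸ h2
  have u1 := h1'.unique (hasDerivAt_const (0 : ℝ) (A q))
  have u2 := h2'.unique (hasDerivAt_const (0 : ℝ) (B q))
  simp only [Real.sin_zero, Real.cos_zero, neg_zero, RR_rot0] at u1 u2
  have r0 : rot 0 q = q := by
    have := RR_rot0 q
    rwa [neg_zero] at this
  rw [r0] at u1 u2
  constructor
  · linarith
  · linarith

/-- differentiate an identity `y F_x - x F_y = G` valid in the ring -/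
theorem RR_diff (ρ R : ℝ) (F G : ℝ × ℝ → ℝ) (hFx : Differentiable ℝ (px F))
    (hFy : Differentiable ℝ (py F)) (hG : Differentiable ℝ G)
    (h : ∀ q ∈ Ring ρ R, q.2 * px F q - q.1 * py F q = G q) (q : ℝ × ℝ) (hq : q ∈ Ring ρ R) :
    q.2 * px (px F) q - (py F q + q.1 * px (py F) q) = px G q ∧
    (px F q + q.2 * py (px F) q) - q.1 * py (py F) q = py G q := by
  have hO := RR_open ρ R
  constructor
  · have c : Continuous fun s : ℝ => ((q.1 + s, q.2) : ℝ × ℝ) := by fun_prop
    have m : ∀ᶠ s in 𝓝 (0 : ℝ), ((q.1 + s, q.2) : ℝ × ℝ) ∈ Ring ρ R := by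
      apply c.continuousAt.eventually_mem
      rw [add_zero]
      exact hO.mem_nhds hq
    have d1 := (RR_lx (px F) hFx q).const_mul q.2
    have d2 := ((hasDerivAt_id (0 : ℝ)).const_add q.1).mul (RR_lx (py F) hFy q)
    have d3 := d1.sub d2
    have d4 := RR_lx G hG q
    have e : (fun s : ℝ => G (q.1 + s, q.2)) =ᶠ[𝓝 0]
        ((fun s : ℝ => q.2 * px F (q.1 + s, q.2)) -
          (fun s : ℝ => q.1 + id s) * (fun s : ℝ => py F (q.1 + s, q.2))) := by
      filter_upwards [m] with s hs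
      exact (h _ hs).symm
    have u := (d3.congr_of_eventuallyEq e).unique d4
    simp only [id_eq, add_zero, one_mul] at u
    exact u
  · have c : Continuous fun s : ℝ => ((q.1, q.2 + s) : ℝ × ℝ) := by fun_prop
    have m : ∀ᶠ s in 𝓝 (0 : ℝ), ((q.1, q.2 + s) : ℝ × ℝ) ∈ Ring ρ R := by
      apply c.continuousAt.eventually_mem
      rw [add_zero]
      exact hO.mem_nhds hq
    have d1 := ((hasDerivAt_id (0 : ℝ)).const_add q.2).mul (RR_ly (px F) hFx q)
    have d2 := (RR_ly (py F) hFy q).const_mul q.1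
    have d3 := d1.sub d2
    have d4 := RR_ly G hG q
    have e : (fun s : ℝ => G (q.1, q.2 + s)) =ᶠ[𝓝 0]
        ((fun s : ℝ => q.2 + id s) * (fun s : ℝ => px F (q.1, q.2 + s)) -
          (fun s : ℝ => q.1 * py F (q.1, q.2 + s))) := by
      filter_upwards [m] with s hs
      exact (h _ hs).symm
    have u := (d3.congr_of_eventuallyEq e).unique d4
    simp only [id_eq, add_zero, one_mul] at u
    exact u

theorem RR_polar (q : ℝ × ℝ) : ∃ r θ : ℝ, 0 ≤ r ∧ r ^ 2 = q.1 ^ 2 + q.2 ^ 2 ∧ q.1 = r * Real.cos θ ∧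
    q.2 = r * Real.sin θ ∧ rot (-θ) q = (r, 0) := by
  set z : ℂ := ⟨q.1, q.2⟩ with hz
  have h1 := Complex.norm_mul_cos_arg z
  have h2 := Complex.norm_mul_sin_arg z
  have e1 : q.1 = ‖z‖ * Real.cos z.arg := h1.symm
  have e2 : q.2 = ‖z‖ * Real.sin z.arg := h2.symm
  have hcs := Real.cos_sq_add_sin_sq z.arg
  refine ⟨‖z‖, z.arg, norm_nonneg _, ?_, e1, e2, ?_⟩
  · rw [e1, e2]
    linear_combination (-‖z‖ ^ 2) * hcs
  · unfold rot
    rw [Real.cos_neg, Real.sin_neg, e1, e2]
    ext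
    · simp only
      linear_combination ‖z‖ * hcs
    · simp only
      ring

theorem RR_2d (R ρ : ℝ) (A B : ℝ × ℝ → ℝ) (hρ : 0 ≤ ρ) (hρR : ρ < R) (hA : ContDiff ℝ 2 A)
    (hB : ContDiff ℝ 2 B)
    (h : ∀ q ∈ Ring ρ R, ∀ α : ℝ, Real.cos α * A (rot (-α) q) - Real.sin α * B (rot (-α) q) = A q ∧
      Real.sin α * A (rot (-α) q) + Real.cos α * B (rot (-α) q) = B q)
    (hdiv : ∀ q ∈ Ring ρ R, px A q + py B q = 0) (hc : A (R, 0) = 0) :
    ∀ q ∈ Ring ρ R, q.1 * A q + q.2 * B q = 0 ∧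
      A q * (px (px B) q - px (py A) q) + B q * (py (px B) q - py (py A) q) = 0 ∧
      (∀ r, ρ < r → r < R → A (r, 0) = 0 ∧ px A (r, 0) = 0 ∧
        r * py A (r, 0) = -B (r, 0) ∧ py B (r, 0) = 0 ∧
        r ^ 2 * py (py B) (r, 0) = r * px B (r, 0) - B (r, 0)) := by
  have dA : Differentiable ℝ A := hA.differentiable (by norm_num)
  have dB : Differentiable ℝ B := hB.differentiable (by norm_num)
  obtain ⟨cA1, cA2, sA⟩ := SP 1 A (by exact_mod_cast hA)
  obtain ⟨cB1, cB2, sB⟩ := SP 1 B (by exact_mod_cast hB)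
  have dA1 : Differentiable ℝ (px A) := cA1.differentiable (by norm_num)
  have dA2 : Differentiable ℝ (py A) := cA2.differentiable (by norm_num)
  have dB1 : Differentiable ℝ (px B) := cB1.differentiable (by norm_num)
  have dB2 : Differentiable ℝ (py B) := cB2.differentiable (by norm_num)
  have sA' := fun q => congrFun (sA le_rfl) q
  have sB' := fun q => congrFun (sB le_rfl) q
  have E : ∀ q ∈ Ring ρ R, q.2 * px A q - q.1 * py A q = B q ∧ q.2 * px B q - q.1 * py B q = -A q :=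
    fun q hq => RR_inf A B dA dB q (h q hq)
  have D1 := RR_diff ρ R A B dA1 dA2 dB (fun q hq => (E q hq).1)
  have D2 := RR_diff ρ R B (fun q => -A q) dB1 dB2 dA.neg (fun q hq => (E q hq).2)
  have nA : ∀ q, px (fun q => -A q) q = -px A q ∧ py (fun q => -A q) q = -py A q := by
    intro q
    unfold px py
    have : fderiv ℝ (fun q => -A q) q = -fderiv ℝ A q := fderiv_fun_neg
    rw [this]
    exact ⟨rfl, rfl⟩
  have hmem : ∀ r, ρ < r → r < R → ((r, 0) : ℝ × ℝ) ∈ Ring ρ R := by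
    intro r h1 h2
    refine ⟨?_, ?_⟩
    · show ρ ^ 2 < r ^ 2 + 0 ^ 2
      nlinarith
    · show r ^ 2 + 0 ^ 2 < R ^ 2
      nlinarith
  -- the radial component vanishes on the ray
  have hray : ∀ r, ρ < r → r < R → A (r, 0) = 0 := by
    intro r h1 h2
    have hg : ∀ x : ℝ, HasDerivAt (fun x : ℝ => x * A (x, 0)) (A (x, 0) + x * px A (x, 0)) x := by
      intro x
      have h3 : HasDerivAt (fun s : ℝ => ((s, 0) : ℝ × ℝ)) (1, 0) x :=
        (hasDerivAt_id x).prodMk (hasDerivAt_const x (0 : ℝ))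
      have h4 := RR_curve A dA _ _ x h3
      have h5 := (hasDerivAt_id x).mul h4
      simp only [one_mul, zero_mul, add_zero, id_eq] at h5
      exact h5
    obtain ⟨c, hc1, hc2⟩ := exists_hasDerivAt_eq_slope (fun x : ℝ => x * A (x, 0))
      (fun x => A (x, 0) + x * px A (x, 0)) h2
      (fun x _ => (hg x).continuousAt.continuousWithinAt) (fun x _ => hg x)
    have m := hmem c (h1.trans hc1.1) hc1.2
    have e1 := (E _ m).2
    have e2 := hdiv _ m
    simp only at e1
    have e3 : A (c, 0) + c * px A (c, 0) = 0 := by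
      have : px A (c, 0) = -py B (c, 0) := by linarith
      rw [this]
      linarith
    rw [e3, hc, mul_zero, zero_sub, eq_div_iff (by linarith), zero_mul] at hc2
    have hr : r ≠ 0 := by linarith
    have h6 : r * A (r, 0) = 0 := by linarith
    exact (mul_eq_zero.1 h6).resolve_left hr
  have hrad : ∀ q ∈ Ring ρ R, q.1 * A q + q.2 * B q = 0 := by
    intro q hq
    obtain ⟨r, θ, h1, h2, h3, h4, h5⟩ := RR_polar q
    obtain ⟨g1, g2⟩ := h q hq θ
    have hq1 : ρ ^ 2 < r ^ 2 := by rw [h2]; exact hq.1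
    have hq2 : r ^ 2 < R ^ 2 := by rw [h2]; exact hq.2
    have hr1 : ρ < r := lt_of_pow_lt_pow_left₀ 2 h1 hq1
    have hr2 : r < R := lt_of_pow_lt_pow_left₀ 2 (hρ.trans hρR.le) hq2
    rw [h5, hray r hr1 hr2] at g1 g2
    rw [← g1, ← g2, h3, h4]
    ring
  intro q hq
  refine ⟨hrad q hq, ?_, ?_⟩
  · have e1 := (D2 q hq).1
    have e2 := (D1 q hq).2
    rw [(nA q).1] at e1
    have e3 := sA' q
    have e4 := sB' q
    have hr := hrad q hq
    have hpos : 0 < q.1 ^ 2 + q.2 ^ 2 := lt_of_le_of_lt (sq_nonneg ρ) hq.1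
    -- W = B_x - A_y is rotation invariant
    have hW : q.2 * (px (px B) q - px (py A) q) - q.1 * (py (px B) q - py (py A) q) = 0 := by
      rw [e3, ← e4]
      linarith
    have key : (q.1 ^ 2 + q.2 ^ 2) *
        (A q * (px (px B) q - px (py A) q) + B q * (py (px B) q - py (py A) q)) = 0 := by
      linear_combination (-(q.1 * B q - q.2 * A q)) * hW +
        (q.1 * (px (px B) q - px (py A) q) + q.2 * (py (px B) q - py (py A) q)) * hr
    exact (mul_eq_zero.1 key).resolve_left hpos.ne'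
  · intro r h1 h2
    have m := hmem r h1 h2
    have e0 := hray r h1 h2
    obtain ⟨e1, e2⟩ := E _ m
    have e3 := hdiv _ m
    have e4 := (D2 _ m).2
    rw [(nA _).2] at e4
    simp only [zero_mul, zero_sub, add_zero] at e1 e2 e4
    have hr : r ≠ 0 := by linarith
    have e5 : py B (r, 0) = 0 := by
      have : r * py B (r, 0) = 0 := by rw [e0] at e2; linarith
      exact (mul_eq_zero.1 this).resolve_left hr
    refine ⟨e0, by rw [e5] at e3; linarith, by linarith, e5, ?_⟩
    have e6 : r * py (py B) (r, 0) = px B (r, 0) + py A (r, 0) := by linarith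
    calc r ^ 2 * py (py B) (r, 0) = r * (r * py (py B) (r, 0)) := by ring
      _ = r * px B (r, 0) + r * py A (r, 0) := by rw [e6]; ring
      _ = _ := by linarith

theorem RR : RR_stmt := by
  intro R ρ t a b hρ hρR ha hb hRI hdiv hcirc
  have da : Differentiable ℝ a := ha.differentiable (by norm_num)
  have db : Differentiable ℝ b := hb.differentiable (by norm_num)
  obtain ⟨_, ca1, ca2, _⟩ := SM 1 a (by exact_mod_cast ha)
  obtain ⟨_, cb1, cb2, _⟩ := SM 1 b (by exact_mod_cast hb)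
  have da1 : Differentiable ℝ (dx a) := ca1.differentiable (by norm_num)
  have da2 : Differentiable ℝ (dy a) := ca2.differentiable (by norm_num)
  have db1 : Differentiable ℝ (dx b) := cb1.differentiable (by norm_num)
  have db2 : Differentiable ℝ (dy b) := cb2.differentiable (by norm_num)
  have dv : Differentiable ℝ (vort a b) := db1.sub da2
  have hs : ContDiff ℝ 2 fun q : ℝ × ℝ => ((t, q) : ℝ × ℝ × ℝ) := by fun_prop
  set A : ℝ × ℝ → ℝ := fun q => a (t, q) with hA
  set B : ℝ × ℝ → ℝ := fun q => b (t, q) with hB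
  have cA : ContDiff ℝ 2 A := ha.comp hs
  have cB : ContDiff ℝ 2 B := hb.comp hs
  obtain ⟨cA1, cA2, _⟩ := SP 1 A (by exact_mod_cast cA)
  obtain ⟨cB1, cB2, _⟩ := SP 1 B (by exact_mod_cast cB)
  have dA2 : Differentiable ℝ (py A) := cA2.differentiable (by norm_num)
  have dB1 : Differentiable ℝ (px B) := cB1.differentiable (by norm_num)
  have s1 : ∀ q, dx a (t, q) = px A q := fun q => (SL a t q (da _)).1.symm
  have s2 : ∀ q, dy a (t, q) = py A q := fun q => (SL a t q (da _)).2.1.symm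
  have s3 : ∀ q, dx b (t, q) = px B q := fun q => (SL b t q (db _)).1.symm
  have s4 : ∀ q, dy b (t, q) = py B q := fun q => (SL b t q (db _)).2.1.symm
  have s5 : ∀ q, dy (dy b) (t, q) = py (py B) q := by
    intro q
    rw [← (SL (dy b) t q (db2 _)).2.1]
    congr 1
    funext q
    exact s4 q
  have ev : (fun q => vort a b (t, q)) = fun q => px B q - py A q := by
    funext q
    unfold vort
    rw [s3, s2]
  have sub_x : ∀ q, px (fun q => px B q - py A q) q = px (px B) q - px (py A) q := by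
    intro q
    unfold px at *
    rw [show (fun q => fderiv ℝ B q (1, 0) - py A q) = (fun q => fderiv ℝ B q (1, 0)) - py A from rfl,
      fderiv_sub (dB1 q) (dA2 q)]
    rfl
  have sub_y : ∀ q, py (fun q => px B q - py A q) q = py (px B) q - py (py A) q := by
    intro q
    show fderiv ℝ (px B - py A) q (0, 1) = _
    rw [fderiv_sub (dB1 q) (dA2 q)]
    rfl
  have s6 : ∀ q, dx (vort a b) (t, q) = px (px B) q - px (py A) q := by
    intro q
    rw [← (SL (vort a b) t q (dv _)).1, ev, sub_x]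
  have s7 : ∀ q, dy (vort a b) (t, q) = py (px B) q - py (py A) q := by
    intro q
    rw [← (SL (vort a b) t q (dv _)).2.1, ev, sub_y]
  have main := RR_2d R ρ A B hρ hρR cA cB
    (fun q hq α => ⟨(hRI α t rfl q hq).1, (hRI α t rfl q hq).2⟩)
    (fun q hq => by rw [← s1, ← s4]; exact hdiv q hq)
    ((hcirc (R, 0) (by show R ^ 2 + 0 ^ 2 = R ^ 2; ring)).1)
  intro q hq
  obtain ⟨m1, m2, m3⟩ := main q hq
  refine ⟨m1, ?_, ?_⟩
  · rw [s6, s7]; exact m2
  · intro r h1 h2
    rw [s1, s2, s3, s4, s5]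
    exact m3 r h1 h2

end NS
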