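import Pool.Agent.helper42.NS.Spec2
import Pool.Agent.helper38.NS.CNT

set_option autoImplicit false

/-!
# Row nos2:CRU: all segments are good, for most graphs
-/

namespace Pool.Agent.helper42.NS

open Polynomial Matrix

theorem CRU_gr {t : ℕ} {H : Matrix (Fin (t + 1)) (Fin (t + 1)) ℤ} (hH : IsGr H) : IsGr (tl H) :=
  ⟨fun i j => hH.1 i.succ j.succ, fun i => hH.2.1 i.succ, fun i j => hH.2.2 i.succ j.succ⟩

/-- the first row -/
def CRU_row {t : ℕ} (H : Matrix (Fin (t + 1)) (Fin (t + 1)) ℤ) : Fin t → Bool :=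
  fun j => decide (H 0 j.succ = 1)

theorem CRU_bord {t : ℕ} {H : Matrix (Fin (t + 1)) (Fin (t + 1)) ℤ} (hH : IsGr H) :
    bord (tl H) (ind (CRU_row H)) = H := by
  have h0 : ∀ j : Fin t, ind (CRU_row H) j = H 0 j.succ := by
    intro j
    unfold ind CRU_row
    rcases hH.1 0 j.succ with h | h <;> simp [h]
  ext i j
  refine Fin.cases ?_ (fun i => ?_) i
  · refine Fin.cases ?_ (fun j => ?_) j
    · rw [bord_zero_zero, hH.2.1]
    · rw [bord_zero_succ, h0]
  · refine Fin.cases ?_ (fun j => ?_) j
    · rw [bord_succ_zero, h0, hH.2.2]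
    · rw [bord_succ_succ]
      rfl

theorem CRU_count (t : ℕ) (A : Matrix (Fin (t + 1)) (Fin (t + 1)) ℤ → Prop) :
    cnt (t + 1) A ≤ ∑ H ∈ (CNT_fin t).toFinset,
      Set.ncard {b : Fin t → Bool | A (bord H (ind b))} := by
  classical
  unfold cnt
  have f2 : {H : Matrix (Fin (t + 1)) (Fin (t + 1)) ℤ | IsGr H ∧ A H}.Finite :=
    (CNT_fin (t + 1)).subset fun H h => h.1
  have f3 : ∀ H : Matrix (Fin t) (Fin t) ℤ, Set.ncard {b : Fin t → Bool | A (bord H (ind b))} =
      (Finset.univ.filter fun b : Fin t → Bool => A (bord H (ind b))).card := by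
    intro H
    rw [← Set.ncard_coe_finset]
    congr 1
    ext b
    simp
  rw [Set.ncard_eq_toFinset_card _ f2, Finset.sum_congr rfl fun H _ => f3 H, ← Finset.card_sigma]
  refine Finset.card_le_card_of_injOn (fun H => ⟨tl H, CRU_row H⟩) ?_ ?_
  · intro H hH
    rw [Finset.mem_coe, Set.Finite.mem_toFinset] at hH
    rw [Finset.mem_coe, Finset.mem_sigma]
    refine ⟨?_, ?_⟩
    · rw [Set.Finite.mem_toFinset]
      exact CRU_gr hH.1
    · rw [Finset.mem_filter]
      refine ⟨Finset.mem_univ _, ?_⟩
      show A (bord (tl H) (ind (CRU_row H)))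
      rw [CRU_bord hH.1]
      exact hH.2
  · intro H hH H' hH' h
    rw [Finset.mem_coe, Set.Finite.mem_toFinset] at hH hH'
    have h1 : tl H = tl H' := congrArg (fun x : (Σ _ : Matrix (Fin t) (Fin t) ℤ, (Fin t → Bool)) => x.1) h
    have h2 : CRU_row H = CRU_row H' :=
      congrArg (fun x : (Σ _ : Matrix (Fin t) (Fin t) ℤ, (Fin t → Bool)) => x.2) h
    rw [← CRU_bord hH.1, ← CRU_bord hH'.1, h1, h2]

theorem CRU_le {t : ℕ} (S : Set (Fin t → Bool)) : Set.ncard S ≤ 2 ^ t := by
  refine (Set.ncard_le_card S).trans ?_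
  simp

theorem CRU_all (t : ℕ) : (CNT_fin t).toFinset.card ≤ 2 ^ (t.choose 2) := by
  classical
  induction t with
  | zero =>
    rw [Nat.choose_zero_succ, pow_zero]
    exact Finset.card_le_one_of_subsingleton _
  | succ t ih =>
    have h1 := CRU_count t (fun _ => True)
    have h2 : cnt (t + 1) (fun _ => True) = (CNT_fin (t + 1)).toFinset.card := by
      unfold cnt
      rw [← Set.ncard_eq_toFinset_card _ (CNT_fin (t + 1))]
      congr 1
      ext H
      simp
    rw [h2] at h1
    have h3 : ∀ H ∈ (CNT_fin t).toFinset,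
        Set.ncard {b : Fin t → Bool | (fun _ => True) (bord H (ind b))} ≤ 2 ^ t := by
      intro H _
      exact CRU_le _
    have h4 := h1.trans (Finset.sum_le_sum h3)
    rw [Finset.sum_const, smul_eq_mul] at h4
    have hc : (t + 1).choose 2 = t.choose 2 + t := by
      rw [Nat.choose_succ_succ' t 1, Nat.choose_one_right, add_comm]
    rw [hc, pow_add]
    exact h4.trans (Nat.mul_le_mul_right _ ih)

theorem CRU_her {L t : ℕ} {H : Matrix (Fin t) (Fin t) ℤ}
    (h : Hered (fun _ H => Good L H) t H) : Good L H := by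
  cases t with
  | zero => exact h
  | succ t => exact h.1

/-- CRU. -/
theorem CRU (h : STP_stmt) : CRU_stmt := by
  classical
  intro L m hL hm
  have key : ∀ t : ℕ, t ≤ 2 ^ L →
      cnt t (fun H => ¬ Hered (fun _ H => Good L H) t H) * 2 ^ (L + 1) ≤ t * 2 ^ (t.choose 2) := by
    intro t
    induction t with
    | zero =>
      intro _
      have h1 : cnt 0 (fun H => ¬ Hered (fun _ H => Good L H) 0 H) = 0 := by
        unfold cnt
        have h2 : {H : Matrix (Fin 0) (Fin 0) ℤ | IsGr H ∧
            ¬ Hered (fun _ H => Good L H) 0 H} = ∅ := by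
          rw [Set.eq_empty_iff_forall_notMem]
          rintro H ⟨_, hH⟩
          apply hH
          show Good L H
          intro P
          have h2 : crk P H = 0 := by
            unfold crk
            exact Module.finrank_zero_of_subsingleton
          rw [h2]
          exact ⟨fun _ => Nat.zero_le _, Nat.zero_le _⟩
        rw [h2, Set.ncard_empty]
      rw [h1, zero_mul]
      exact Nat.zero_le _
    | succ t ih =>
      intro ht
      have ht' : t ≤ 2 ^ L := by omega
      have h1 := ih ht'
      have h2 := CRU_count t (fun H => ¬ Hered (fun _ H => Good L H) (t + 1) H)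
      have h3 : ∀ H ∈ (CNT_fin t).toFinset,
          Set.ncard {b : Fin t → Bool |
            (fun H => ¬ Hered (fun _ H => Good L H) (t + 1) H) (bord H (ind b))} * 2 ^ (L + 1) ≤
          (if ¬ Hered (fun _ H => Good L H) t H then 1 else 0) * (2 ^ t * 2 ^ (L + 1)) + 2 ^ t := by
        intro H hH
        rw [Set.Finite.mem_toFinset] at hH
        by_cases hh : Hered (fun _ H => Good L H) t H
        · have hg := CRU_her hh
          have h4 := h t L H hL hH ht' hg
          rw [if_neg (not_not.mpr hh), zero_mul, zero_add]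
          refine le_trans (Nat.mul_le_mul_right _ ?_) h4
          refine Set.ncard_le_ncard ?_ (Set.toFinite _)
          intro b hb hgb
          exact hb ⟨hgb, hh⟩
        · rw [if_pos hh, one_mul]
          exact le_trans (Nat.mul_le_mul_right _ (CRU_le _)) (Nat.le_add_right _ _)
      have h4 := Finset.sum_le_sum h3
      rw [← Finset.sum_mul, Finset.sum_add_distrib, ← Finset.sum_mul, Finset.sum_const, smul_eq_mul,
        Finset.sum_boole] at h4
      have h5 : ((CNT_fin t).toFinset.filter
          fun H => ¬ Hered (fun _ H => Good L H) t H).card =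
          cnt t (fun H => ¬ Hered (fun _ H => Good L H) t H) := by
        unfold cnt
        rw [← Set.ncard_coe_finset]
        congr 1
        ext H
        simp
      rw [h5] at h4
      have h6 := CRU_all t
      have hc : (t + 1).choose 2 = t.choose 2 + t := by
        rw [Nat.choose_succ_succ' t 1, Nat.choose_one_right, add_comm]
      rw [hc, pow_add 2 (t.choose 2) t]
      rw [Nat.cast_id] at h4
      have h7 : cnt (t + 1) (fun H => ¬ Hered (fun _ H => Good L H) (t + 1) H) * 2 ^ (L + 1) ≤
          cnt t (fun H => ¬ Hered (fun _ H => Good L H) t H) * (2 ^ t * 2 ^ (L + 1)) +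
            (CNT_fin t).toFinset.card * 2 ^ t := by
        refine le_trans (Nat.mul_le_mul_right _ h2) ?_
        exact h4
      refine h7.trans ?_
      calc cnt t (fun H => ¬ Hered (fun _ H => Good L H) t H) * (2 ^ t * 2 ^ (L + 1)) +
            (CNT_fin t).toFinset.card * 2 ^ t
          = (cnt t (fun H => ¬ Hered (fun _ H => Good L H) t H) * 2 ^ (L + 1)) * 2 ^ t +
            (CNT_fin t).toFinset.card * 2 ^ t := by ring
        _ ≤ (t * 2 ^ (t.choose 2)) * 2 ^ t + 2 ^ (t.choose 2) * 2 ^ t :=
            Nat.add_le_add (Nat.mul_le_mul_right _ h1) (Nat.mul_le_mul_right _ h6)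
        _ = (t + 1) * (2 ^ (t.choose 2) * 2 ^ t) := by ring
  exact key m hm

end Pool.Agent.helper42.NS
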